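import Pool.Agent.Q137.EW.Win

/-!
# MP_cbf366_nt: exact windows of primes, of near-logarithmic size, for all lengths at once

Hardy and Littlewood ask whether `ρ(k) = max_m h_m(k)`, that is whether every sieve-admissible window is
the exact set of the primes of infinitely many windows. We show:

* every admissible infinite sequence `s 0, s 1, …` of integers has a subsequence `(s i)_{i ∈ I}` of
  near-logarithmic size (`|I ∩ [0, X)| ≥ (log X)^(1-ε)` for arbitrarily large `X`) which, for every `M`,
  is the EXACT set of the primes of the windows `[n - M, n + M]` (shifted by `n`) for infinitely many `n`;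
* there is a set `B ∋ 0` of near-logarithmic size such that for every `M` the primes of `[p - M, p + M]`
  are exactly the `p + b`, `b ∈ B ∩ [0, M]`, for infinitely many `p` (one set `B` for all lengths `M`);

both in every (reduced) residue class and with the following addition: for every sequence of ARBITRARY
colourings `c 0, c 1, …` of the natural numbers with finitely many colours each (residues, Legendre
symbols, digits, numbers of prime factors, any partition of the primes into finitely many classes, ...)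
there are colourings `κ 0, κ 1, …` of the integers such that the windows can be chosen with
`c a (n + y) = κ a y` for all `a < M` and all `|y| ≤ M`.

Exact patterns: starting library `Pool.Agent.H361R2.Inf` (seq_exact). The ultrafilter argument follows
`Pool.Agent.Q51.CP.Col` (helper51), where it is used for one colouring of the primes.
-/

set_option autoImplicit false

open Filter

namespace Pool.Agent.Results.MP_cbf366_nt.ExactWindows

/-- The sequence `s` is admissible in the residue class `r` modulo `q`: for every prime `p` some integer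
`n ≡ r mod q` is such that no `n + s i` is divisible by `p`. -/
def Admissible (q : ℕ) (r : ℤ) (s : ℕ → ℤ) : Prop :=
  ∀ p : ℕ, p.Prime → ∃ m : ℕ, ∀ i, ¬ (p : ℤ) ∣ q * m + r + s i

/-- `|I ∩ [0, X)| ≥ (log X) ^ θ` for arbitrarily large `X` -/
def LogSize (θ : ℝ) (I : Set ℕ) : Prop :=
  ∃ᶠ X : ℕ in atTop, (Real.log X) ^ θ ≤ ((I ∩ Set.Iio X).ncard : ℝ)

/-- **Exact windows of primes, for all lengths at once.** -/
theorem result (q : ℕ) (hq : 1 ≤ q) (r : ℤ) (k : ℕ → ℕ) (c : ∀ a, ℕ → Fin (k a)) (ε : ℝ)
    (hε : 0 < ε) :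
    (∀ s : ℕ → ℤ, Function.Injective s → Admissible q r s →
      ∃ (I : Set ℕ) (κ : ∀ a, ℤ → Fin (k a)), LogSize (1 - ε) I ∧ I.Infinite ∧
        ∀ M : ℕ, {n : ℕ | (n : ℤ) ≡ r [ZMOD q] ∧
          (∀ y : ℤ, |y| ≤ M → (((n : ℤ) + y).toNat.Prime ↔ ∃ i ∈ I, s i = y)) ∧
          ∀ a < M, ∀ y : ℤ, |y| ≤ M → c a ((n : ℤ) + y).toNat = κ a y}.Infinite) ∧
    (IsCoprime r (q : ℤ) →
      ∃ (B : Set ℕ) (κ : ∀ a, ℤ → Fin (k a)), 0 ∈ B ∧ LogSize (1 - ε) B ∧
        ∀ M : ℕ, {p : ℕ | (p : ℤ) ≡ r [ZMOD q] ∧
          (∀ y : ℤ, |y| ≤ M → (((p : ℤ) + y).toNat.Prime ↔ ∃ b ∈ B, (b : ℤ) = y)) ∧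
          ∀ a < M, ∀ y : ℤ, |y| ≤ M → c a ((p : ℤ) + y).toNat = κ a y}.Infinite) :=
  ⟨fun s hs hadm => Pool.Agent.Q137.EW.main q hq r s hs hadm k c ε hε,
    fun hqr => Pool.Agent.Q137.EW.windows q hq r hqr k c ε hε⟩

end Pool.Agent.Results.MP_cbf366_nt.ExactWindows
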