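import Pool.Agent.Q46.IP.Tools
import Pool.Agent.Q46.SL.Pseudo

/-!
# Every admissible set is the exact set of almost primes in windows at patterns of pseudorandom sequences

The Hardy–Littlewood conjecture `ρ(k) = max h_m(k)` asks for windows of length `k` in which the largest possible set, admissible
for the sieve, consists of primes. For almost primes we find such windows at the places where an arbitrary pattern of signs
occurs in a pseudorandom sequence, exactly: all other numbers in the window, and even within `κ rankin(N)`, are divisible by a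
prime `≤ log N`. Take for `t` the numbers in `(m, m + k]` without prime factor `≤ k`.

Let `a 0, ..., a (N - 1)` be ANY signs whose correlations of order at most `2k` save a power of `N`, `2 ^ k ≤ N ^ (δ / 8)`. Every pattern
of `k` signs with arbitrary distinct shifts occurs in the sequence at many places `x` with the property, at least
`(N / 2 ^ k) N ^ (-ε)`.

Here the property is: all `x + t_j` have at most `R` prime factors, all larger than `M ^ κ`, while EVERY other integer within
distance `κ rankin(M)` of `x` has a prime factor `≤ log M`; `t` is an arbitrary pattern without local obstruction, `|t_j| ≤ (log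
M) ^ B`, and `rankin(M) = log M log₂ M log₄ M / (log₃ M) ^ 2`. (`M = N`)

Design and proof: helper46 (modules `Pool.Agent.Q46.IP.*`, `Pool.Agent.Q46.SL.*`): the Rankin covering argument with holes at the
pattern gives a modulus and a residue class in which everything else near the pattern is covered by the small primes; the sieve is
applied to the vectors of residues in this class, which are equidistributed with a power saving by bounds for exponential sums.
-/

set_option autoImplicit false

namespace Pool.Agent.Results.MP_cbf366_nt.ExactWindowsPseudorandom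

open Finset Polynomial Filter
open Pool.Agent.Q46.SL hiding Almost
open Pool.Agent.Q46.IP (Lone csL evI sysT adm_pair adm_one lone_tuple lone_pair lone_one)

/-- `n` is not zero and has at most `R` prime factors (counted with multiplicity), all larger than `z` -/
def Almost (z : ℝ) (R : ℕ) (n : ℤ) : Prop :=
  n ≠ 0 ∧ n.natAbs.primeFactorsList.length ≤ R ∧ ∀ q : ℕ, q.Prime → (q : ℤ) ∣ n → z < q

/-- Rankin's function `log M log₂ M log₄ M / (log₃ M) ^ 2` (iterated logarithms) -/
noncomputable def rankin (M : ℝ) : ℝ :=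
  Real.log M * Real.log (Real.log M) * Real.log (Real.log (Real.log (Real.log M))) /
    (Real.log (Real.log (Real.log M))) ^ 2

/-- modulo every prime some residue is different from all `-t_j` -/
def Adm {l : ℕ} (t : Fin l → ℤ) : Prop := ∀ q : ℕ, q.Prime → ∃ a < q, ∀ j, ¬ (q : ℤ) ∣ a + t j

/-- `x` is positive, all `x + t_j` have at most `R` prime factors, all larger than `M ^ κ`, and every other integer `x + i` with
`|i| ≤ κ rankin(M)` has a prime factor `≤ log M` -/
def Alone {l : ℕ} (t : Fin l → ℤ) (κ M : ℝ) (R : ℕ) (x : ℤ) : Prop :=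
  0 < x ∧ (∀ j, Almost (M ^ κ) R (x + t j)) ∧
    ∀ i : ℤ, |(i : ℝ)| ≤ κ * rankin M → (∀ j, i ≠ t j) → ∃ q : ℕ, q.Prime ∧ (q : ℝ) ≤ Real.log M ∧ (q : ℤ) ∣ x + i

/-- all the correlations of order at most `l` of the signs `a 0, ..., a (N - 1)` are at most `C` in absolute value:
`|∑_{n < M} ∏_{d ∈ D} a (n + d)| ≤ C` whenever `1 ≤ |D| ≤ l` and `M + d ≤ N` for all `d ∈ D` -/
def CorrelationsLe (N l : ℕ) (a : ℕ → ℤ) (C : ℝ) : Prop :=
  ∀ D : Finset ℕ, D.Nonempty → D.card ≤ l → ∀ M : ℕ, (∀ d ∈ D, M + d ≤ N) →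
    |((∑ n ∈ range M, ∏ d ∈ D, a (n + d) : ℤ) : ℝ)| ≤ C

/-- Every admissible pattern is the exact set of almost primes in windows at many places where a given pattern of signs occurs. -/
theorem result (l B : ℕ) (δ : ℝ) (hδ : 0 < δ) (hδ1 : δ ≤ 1) (ε : ℝ) (hε : 0 < ε) :
    ∃ κ : ℝ, 0 < κ ∧ ∃ R N₀ : ℕ, ∀ N : ℕ, N₀ ≤ N → ∀ t : Fin l → ℤ, Adm t → (∀ j, |(t j : ℝ)| ≤ Real.log N ^ B) → 
      ∀ k : ℕ, (2 : ℝ) ^ k ≤ (N : ℝ) ^ (δ / 8) → ∀ a : ℕ → ℤ, (∀ n < N, a n = 1 ∨ a n = -1) →
      CorrelationsLe N (2 * k) a ((N : ℝ) ^ (1 - δ)) →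
      ∀ d : Fin k → ℕ, Function.Injective d → (∀ i, 2 * d i ≤ N) → ∀ s : Fin k → ℤ, (∀ i, s i = 1 ∨ s i = -1) →
        ∃ G ⊆ range (N / 2), ((N : ℝ) / 2 ^ k) * (N : ℝ) ^ (-ε) ≤ G.card ∧
          ∀ x ∈ G, (∀ i, a (x + d i) = s i) ∧ Alone t κ N R x := by
  classical
  obtain ⟨κ, hκ, cc, hcc, N₀, h⟩ := Pool.Agent.Q46.SL.pseudo (Lone (B + 1) : PE l 0 l → ℝ → ℝ → ℤ → Prop)
    (fun k' M => M ^ (-(ε / (2 * (((1 : ℕ) : ℝ) + 1)) * k'))) (fun k' _ => csL l l (B + 1) (ε / (2 * (((1 : ℕ) : ℝ) + 1))) (by positivity) k') δ hδ hδ1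
  obtain ⟨p₁, hp₁8, hp₁, hp₂⟩ := evI hcc hε hκ 1
  refine ⟨κ, hκ, ⌊((l : ℝ) + 2) / κ⌋₊, max p₁ N₀, ?_⟩
  intro N hN t hadm hts k hk a ha hC d hd hdN s hs
  have hpr : (p₁ : ℝ) ≤ N := by exact_mod_cast (le_max_left _ _).trans hN
  have key := h N ((le_max_right _ _).trans hN) (sysT t hadm) k hk a ha hC d hd hdN s hs
  refine ⟨(Pool.Agent.Q46.MH.pat a d s (N / 2)).filter (fun n : ℕ => Lone (B + 1) (sysT t hadm) κ N (n : ℤ)), ?_,
    le_trans (hp₁ _ hpr _ (by positivity)) key, ?_⟩
  · intro x hx
    rw [mem_filter] at hx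
    unfold Pool.Agent.Q46.MH.pat at hx
    rw [mem_filter] at hx
    exact hx.1.1
  · intro x hx
    rw [mem_filter] at hx
    unfold Pool.Agent.Q46.MH.pat at hx
    rw [mem_filter, mem_range] at hx
    refine ⟨hx.1.2, lone_tuple hp₁8 hpr hts hx.2 ?_⟩
    exact_mod_cast (by omega : x ≤ N)

end Pool.Agent.Results.MP_cbf366_nt.ExactWindowsPseudorandom
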