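import Pool.Agent.Q48.RD.Pat

/-!
# Windows with the maximal number of almost primes, at places with restricted digits

For `m ≥ 0` and `k ≥ 1` let `h m k` be the number of the integers `n` in `(m, m + k]` without prime factors `≤ k`. A window
`(x, x + k]` with `x ≥ k` contains at most `h x k` primes. We consider the windows with `x = k ! (N + t) + m`, where `N ≥ 1`; they
satisfy `h x k = h m k`.

Let `g ≥ 2` be a base and `K` a large number of digits. For every `i < K` let `A i` be an arbitrary set of digits, such that the number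
`|A 0| ⋯ |A (K - 1)|` of the integers `t < g ^ K` whose `i`-th digit belongs to `A i` for all `i < K` is at least `exp (- c K) g ^ K`
(`Rich`), and let `1 ≤ N ≤ g ^ (E K)`. Let `h = h m k`.

For at least `κ |A 0| ⋯ |A (K - 1)| / K ^ h` of these `t` the window `(x, x + k]` contains exactly `h` integers which have at most `r`
prime factors, all larger than `g ^ (K / r)`, unless there is an obvious obstruction (no digit `d` in `A 0` such that all integers in the
window for `t = d` without prime factors `≤ k` are prime to `g`); and for at most `C |A 0| ⋯ |A (K - 1)| / K ^ h` of the `t` the window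
contains exactly `h` primes. The constants do not depend on `N` and on the sets `A i`.

If `m` is chosen such that `h m k` is as large as possible, then this is the analogue of the conjecture `ρ (k) = max_m h m k` for almost
primes, for all `k`, in short intervals and in sparse sets of integers.
-/

set_option autoImplicit false

namespace Pool.Agent.Results.MP_cbf366_nt.ExtremalWindows

open Filter Finset
open Pool.Agent.Q315.RD Pool.Agent.Q48.RD

/-- `n` has no prime factor `≤ k`. -/
def Survives (k n : ℕ) : Prop := ∀ p : ℕ, p.Prime → p ≤ k → ¬ p ∣ n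

open Classical in
/-- The number of the integers in `(m, m + k]` without prime factors `≤ k`. -/
noncomputable def h (m k : ℕ) : ℕ := ((Ioc m (m + k)).filter (Survives k)).card

/-- The number of the primes in `(x, x + k]`. -/
def primesIn (x k : ℕ) : ℕ := ((Ioc x (x + k)).filter Nat.Prime).card

open Classical in
/-- The number of the integers in `(x, x + k]` with at most `r` prime factors `p`, all with `p ^ r > y`. -/
noncomputable def almostIn (y r x k : ℕ) : ℕ := ((Ioc x (x + k)).filter (AlmostPrime y r)).card

lemma survives_shift (k u n : ℕ) : Survives k (k.factorial * u + n) ↔ Survives k n := by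
  have h1 : ∀ p : ℕ, p.Prime → p ≤ k → (p ∣ k.factorial * u + n ↔ p ∣ n) := fun p hp hpk =>
    Nat.dvd_add_right (((Nat.Prime.dvd_factorial hp).2 hpk).mul_right u)
  constructor
  · intro H p hp hpk hd
    exact H p hp hpk ((h1 p hp hpk).2 hd)
  · intro H p hp hpk hd
    exact H p hp hpk ((h1 p hp hpk).1 hd)

open Classical in
/-- The survivors in the window. -/
lemma card_window (k m u : ℕ) : ((Ioc (k.factorial * u + m) (k.factorial * u + m + k)).filter (Survives k)).card = h m k := by
  unfold h
  symm
  apply card_bij (fun n _ => k.factorial * u + n)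
  · intro n hn
    rw [mem_filter, mem_Ioc] at hn ⊢
    exact ⟨by omega, (survives_shift k u n).2 hn.2⟩
  · intro a _ b _ hab
    omega
  · intro n hn
    rw [mem_filter, mem_Ioc] at hn
    refine ⟨n - k.factorial * u, ?_, by omega⟩
    rw [mem_filter, mem_Ioc]
    refine ⟨by omega, (survives_shift k u _).1 ?_⟩
    have e : k.factorial * u + (n - k.factorial * u) = n := by omega
    rw [e]
    exact hn.2

/-- **Windows with the maximal number of almost primes, at places with restricted digits.** -/
theorem result (m k E : ℕ) (hk : 1 ≤ k) :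
    ∃ c : ℝ, 0 < c ∧ ∃ r₀ : ℕ, 2 ≤ r₀ ∧ ∀ r : ℕ, r₀ ≤ r → ∀ g : ℕ, 2 ≤ g → ∃ κ C : ℝ, 0 < κ ∧ 0 < C ∧
      ∀ᶠ K : ℕ in atTop, ∀ N : ℕ, 1 ≤ N → N ≤ g ^ (E * K) → ∀ A : ℕ → Finset ℕ, Rich c g K A →
        ((∃ d ∈ A 0, ∀ n : ℕ, k.factorial * (N + d) + m < n → n ≤ k.factorial * (N + d) + m + k → Survives k n → n.Coprime g) →
          κ * choices K A / (K : ℝ) ^ (h m k) ≤
            count g K A fun t => almostIn (g ^ K) r (k.factorial * (N + t) + m) k = h m k) ∧
        (count g K A (fun t => primesIn (k.factorial * (N + t) + m) k = h m k) : ℝ) ≤ C * choices K A / (K : ℝ) ^ (h m k) := by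
  classical
  obtain ⟨I, hI⟩ : ∃ I : Finset ℕ, I = (Ioc m (m + k)).filter (Survives k) := ⟨_, rfl⟩
  have hcard : I.card = h m k := by rw [hI, h]
  obtain ⟨e, he⟩ : ∃ e : Fin (h m k) → ℕ, e = I.orderEmbOfFin hcard := ⟨_, rfl⟩
  have hinj : Function.Injective e := by rw [he]; exact (I.orderEmbOfFin hcard).injective
  have hmem : ∀ j, e j ∈ I := fun j => by rw [he]; exact I.orderEmbOfFin_mem hcard j
  have hsurj : ∀ i ∈ I, ∃ j, e j = i := fun i hi => by
    have h1 := I.range_orderEmbOfFin hcard
    rw [← he] at h1
    have h2 : i ∈ Set.range e := by rw [h1]; exact mem_coe.2 hi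
    exact h2
  have hfac : 1 ≤ k.factorial := Nat.factorial_pos k
  have hadm : AdmLin (fun _ : Fin (h m k) => k.factorial) e := by
    intro p hp
    rcases Nat.lt_or_ge k p with h1 | h1
    · refine adm_big _ _ hp (lt_of_le_of_lt ?_ h1) fun _ h2 => ?_
      · rw [← hcard, hI]
        refine (card_filter_le _ _).trans ?_
        rw [Nat.card_Ioc]
        omega
      · exact absurd ((Nat.Prime.dvd_factorial hp).1 h2) (by omega)
    · refine ⟨0, fun j hj => ?_⟩
      rw [mul_zero, zero_add] at hj
      have h2 := hmem j
      rw [hI, mem_filter] at h2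
      exact h2.2 p hp h1 hj
  obtain ⟨c, hc, r₀, hr₀, h1⟩ := exactLin (fun _ : Fin (h m k) => k.factorial) e (fun _ => hfac) (fun i j _ hij => hinj hij) hadm
    ∅ (fun x hx => absurd hx (notMem_empty x)) E
  refine ⟨c, hc, r₀, hr₀, fun r hr g hg => ?_⟩
  obtain ⟨κ, C, hκ, hC, h2⟩ := h1 r hr g hg
  refine ⟨κ, C, hκ, hC, ?_⟩
  filter_upwards [h2, eventually_ge_atTop (k ^ r)] with K hK hKk
  intro N hN1 hN A hA
  obtain ⟨e1, e2⟩ := hK N hN A hA
  have hKg : K < g ^ K := Nat.lt_pow_self (by omega)
  -- the elements of the window which survive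
  have hwin : ∀ t j, e j ∈ I → (k.factorial * (N + t) + m < k.factorial * (N + t) + e j ∧
      k.factorial * (N + t) + e j ≤ k.factorial * (N + t) + m + k) ∧ Survives k (k.factorial * (N + t) + e j) := by
    intro t j hj
    rw [hI, mem_filter, mem_Ioc] at hj
    exact ⟨by omega, (survives_shift k _ _).2 hj.2⟩
  have hwin2 : ∀ t n, k.factorial * (N + t) + m < n → n ≤ k.factorial * (N + t) + m + k → Survives k n →
      ∃ j, n = k.factorial * (N + t) + e j := by
    intro t n h3 h4 h5
    have h6 : n - k.factorial * (N + t) ∈ I := by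
      rw [hI, mem_filter, mem_Ioc]
      refine ⟨by omega, (survives_shift k (N + t) _).1 ?_⟩
      have e5 : k.factorial * (N + t) + (n - k.factorial * (N + t)) = n := by omega
      rwa [e5]
    obtain ⟨j, hj⟩ := hsurj _ h6
    exact ⟨j, by omega⟩
  constructor
  · rintro ⟨d, hd, h3⟩
    refine (e1 ⟨d, hd, fun j => ?_⟩).trans (Nat.cast_le.2 (count_mono fun t _ hP => ?_))
    · have h4 := hwin d j (hmem j)
      exact h3 _ h4.1.1 h4.1.2 h4.2
    · unfold almostIn
      rw [← card_window k m (N + t)]
      congr 1
      apply filter_congr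
      intro n hn
      rw [mem_Ioc] at hn
      constructor
      · intro h4 p hp hpk hpn
        have h5 := h4.1 p hp hpn
        have h6 : p ^ r ≤ k ^ r := Nat.pow_le_pow_left hpk r
        omega
      · intro h4
        obtain ⟨j, rfl⟩ := hwin2 t n hn.1 hn.2 h4
        exact hP.1 j
  · refine le_trans (Nat.cast_le.2 (count_mono fun t _ hP j => ?_)) e2
    -- all survivors are primes
    have h3 : (Ioc (k.factorial * (N + t) + m) (k.factorial * (N + t) + m + k)).filter Nat.Prime =
        (Ioc (k.factorial * (N + t) + m) (k.factorial * (N + t) + m + k)).filter (Survives k) := by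
      apply eq_of_subset_of_card_le
      · intro n hn
        rw [mem_filter, mem_Ioc] at hn ⊢
        refine ⟨hn.1, fun p hp hpk hpn => ?_⟩
        have h4 : p = n := (Nat.prime_dvd_prime_iff_eq hp hn.2).1 hpn
        have h5 : k ≤ k.factorial := Nat.self_le_factorial k
        have h6 : k.factorial * 1 ≤ k.factorial * (N + t) := Nat.mul_le_mul_left _ (by omega)
        omega
      · rw [card_window]
        exact hP.ge
    have h4 := hwin t j (hmem j)
    have h5 : k.factorial * (N + t) + e j ∈
        (Ioc (k.factorial * (N + t) + m) (k.factorial * (N + t) + m + k)).filter (Survives k) := by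
      rw [mem_filter, mem_Ioc]
      exact h4
    rw [← h3, mem_filter] at h5
    exact h5.2

end Pool.Agent.Results.MP_cbf366_nt.ExtremalWindows
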